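import Mathlib
import Pool.Agent.X70.TreePar

/-!
# MP_1fa864_co, question Q1: proof

For every tree `T` of order `n`: `Γ_s(T) - γ_s(T) ≤ 4(n-1)/7`.

The proof roots the tree and sums local inequalities with an explicit potential on the edges.
-/

set_option autoImplicit false

namespace Pool.Agent.Results.MP_1fa864_co.FourSevenths

open SimpleGraph X70

/-! ### Definitions -/

open Classical in
/-- `f(N[v])`. -/
noncomputable def closedSum {V : Type} [Fintype V] (G : SimpleGraph V) (f : V → ℤ) (v : V) : ℤ :=
  ∑ u ∈ Finset.univ.filter (fun u => u = v ∨ G.Adj v u), f u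

/-- `f` is a signed dominating function. -/
def IsSDF {V : Type} [Fintype V] (G : SimpleGraph V) (f : V → ℤ) : Prop :=
  (∀ v, f v = 1 ∨ f v = -1) ∧ ∀ v, 1 ≤ closedSum G f v

/-- `f` is a minimal signed dominating function. -/
def IsMinimalSDF {V : Type} [Fintype V] (G : SimpleGraph V) (f : V → ℤ) : Prop :=
  IsSDF G f ∧ ∀ g, IsSDF G g → (∀ v, g v ≤ f v) → g = f

/-- The signed domination number. -/
noncomputable def gammaS {V : Type} [Fintype V] (G : SimpleGraph V) : ℤ :=
  sInf {w | ∃ f, IsSDF G f ∧ ∑ v, f v = w}

/-- The upper signed domination number. -/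
noncomputable def GammaS {V : Type} [Fintype V] (G : SimpleGraph V) : ℤ :=
  sSup {w | ∃ f, IsMinimalSDF G f ∧ ∑ v, f v = w}

/-! ### The local inequality -/

/-- Values `true`, `false` stand for `1`, `-1`. -/
def sg (b : Bool) : ℤ := cond b 1 (-1)

/-- The potential of the edge from a child (first three arguments) to its parent (last three):
value of `f`, value of `g`, criticality. -/
def pot (cf cg ck pf pg pk : Bool) : ℤ :=
  (cond pf 
    (cond pg 
      (cond pk 
        (cond cf (cond cg (cond ck (-2) (-4)) (cond ck (-5) (1))) (cond cg (cond ck (-8) (-8)) (cond ck (-6) (-14))))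
        (cond cf (cond cg (cond ck (-2) (-4)) (cond ck (-5) (-5))) (cond cg (cond ck (-8) (-8)) (cond ck (-6) (-14)))))
      (cond pk 
        (cond cf (cond cg (cond ck (-10) (-4)) (cond ck (-19) (-7))) (cond cg (cond ck (-10) (-10)) (cond ck (-20) (-14))))
        (cond cf (cond cg (cond ck (-10) (-4)) (cond ck (-19) (-13))) (cond cg (cond ck (-10) (-10)) (cond ck (-20) (-14))))))
    (cond pg 
      (cond pk 
        (cond cf (cond cg (cond ck (-1) (-8)) (cond ck (1) (-7))) (cond cg (cond ck (-8) (-8)) (cond ck (-14) (-22))))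
        (cond cf (cond cg (cond ck (-1) (-8)) (cond ck (1) (-13))) (cond cg (cond ck (-8) (-8)) (cond ck (-14) (-22)))))
      (cond pk 
        (cond cf (cond cg (cond ck (-4) (-8)) (cond ck (-13) (-7))) (cond cg (cond ck (-10) (-10)) (cond ck (-14) (-22))))
        (cond cf (cond cg (cond ck (-4) (-8)) (cond ck (-13) (-13))) (cond cg (cond ck (-10) (-10)) (cond ck (-14) (-22)))))))

set_option maxHeartbeats 4000000 in
theorem loc (vf vg vk pf pg pk : Bool) (a b c d e m n o : ℤ)
    (ha : 0 ≤ a) (hb : 0 ≤ b) (hc : 0 ≤ c) (hd : 0 ≤ d) (he : 0 ≤ e) (hm : 0 ≤ m) (hn : 0 ≤ n)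
    (ho : 0 ≤ o)
    (hF : 1 ≤ sg vf + sg pf + (a + b + c + d - e - m - n - o))
    (hG : 1 ≤ sg vg + sg pg + (a + b - c - d + e + m - n - o))
    (hk : vk = true ↔ sg vf + sg pf + (a + b + c + d - e - m - n - o) ≤ 2)
    (hs : vf = true → vk = true ∨ pk = true ∨ 1 ≤ a + c + e + n) :
    a * pot true true true vf vg vk + b * pot true true false vf vg vk
      + c * pot true false true vf vg vk + d * pot true false false vf vg vk
      + e * pot false true true vf vg vk + m * pot false true false vf vg vk
      + n * pot false false true vf vg vk + o * pot false false false vf vg vk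
      + (7 * ((sg vf - sg vg) / 2) - 2) ≤ pot vf vg vk pf pg pk := by
  cases vf <;> cases vg <;> cases vk <;> cases pf <;> cases pg <;> cases pk <;>
    simp only [sg, pot, cond_true, cond_false, true_iff, false_iff, not_le, Bool.false_eq_true,
      false_or, true_or, forall_const, IsEmpty.forall_iff] at * <;> omega

set_option maxHeartbeats 4000000 in
theorem locRoot (vf vg vk : Bool) (a b c d e m n o : ℤ)
    (ha : 0 ≤ a) (hb : 0 ≤ b) (hc : 0 ≤ c) (hd : 0 ≤ d) (he : 0 ≤ e) (hm : 0 ≤ m) (hn : 0 ≤ n)
    (ho : 0 ≤ o)
    (hF : 1 ≤ sg vf + (a + b + c + d - e - m - n - o))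
    (hG : 1 ≤ sg vg + (a + b - c - d + e + m - n - o))
    (hk : vk = true ↔ sg vf + (a + b + c + d - e - m - n - o) ≤ 2)
    (hs : vf = true → vk = true ∨ 1 ≤ a + c + e + n) :
    a * pot true true true vf vg vk + b * pot true true false vf vg vk
      + c * pot true false true vf vg vk + d * pot true false false vf vg vk
      + e * pot false true true vf vg vk + m * pot false true false vf vg vk
      + n * pot false false true vf vg vk + o * pot false false false vf vg vk
      + (7 * ((sg vf - sg vg) / 2) - 2) ≤ -2 := by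
  cases vf <;> cases vg <;> cases vk <;>
    simp only [sg, pot, cond_true, cond_false, true_iff, false_iff, not_le, Bool.false_eq_true,
      false_or, true_or, forall_const, IsEmpty.forall_iff] at * <;> omega

/-! ### Summation over a tree -/

section main

variable {V : Type} [Fintype V]

theorem critical {G : SimpleGraph V} {f : V → ℤ} (hf : IsMinimalSDF G f) {v : V} (hv : f v = 1) :
    ∃ u, (u = v ∨ G.Adj v u) ∧ closedSum G f u ≤ 2 := by
  classical
  by_contra hcon
  have hcon' : ∀ u, (u = v ∨ G.Adj v u) → 3 ≤ closedSum G f u := by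
    intro u hu
    by_contra h
    exact hcon ⟨u, hu, by omega⟩
  set g : V → ℤ := fun u => f u - (if u = v then 2 else 0) with hg
  have hsum : ∀ u, closedSum G g u = closedSum G f u - (if (v = u ∨ G.Adj u v) then 2 else 0) := by
    intro u
    unfold closedSum
    rw [hg, Finset.sum_sub_distrib, Finset.sum_ite_eq']
    simp
  have hgs : IsSDF G g := by
    refine ⟨?_, ?_⟩
    · intro u
      by_cases hu : u = v
      · right; simp [hg, hu, hv]
      · have := hf.1.1 u
        simpa [hg, hu] using this
    · intro u
      rw [hsum]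
      by_cases hu : v = u ∨ G.Adj u v
      · rw [if_pos hu]
        have := hcon' u (hu.imp Eq.symm fun h => h.symm)
        omega
      · rw [if_neg hu]
        have := hf.1.2 u
        omega
  have hle : ∀ u, g u ≤ f u := by
    intro u
    simp only [hg]
    split_ifs <;> omega
  have heq := hf.2 g hgs hle
  have := congrFun heq v
  simp [hg] at this

/-- state of a vertex -/
noncomputable def st (G : SimpleGraph V) (f g : V → ℤ) (v : V) : Bool × Bool × Bool :=
  (decide (f v = 1), decide (g v = 1), decide (closedSum G f v ≤ 2))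

theorem sg_decide {x : ℤ} (hx : x = 1 ∨ x = -1) : sg (decide (x = 1)) = x := by
  rcases hx with rfl | rfl <;> simp [sg]

open Classical in
/-- number of children of `v` in state `s` -/
noncomputable def cnt (G : SimpleGraph V) (f g : V → ℤ) (r : V) (par : V → V) (v : V)
    (s : Bool × Bool × Bool) : ℤ :=
  (((children r par v).filter (fun c => st G f g c = s)).card : ℤ)

theorem cnt_nonneg (G : SimpleGraph V) (f g : V → ℤ) (r : V) (par : V → V) (v : V)
    (s : Bool × Bool × Bool) : 0 ≤ cnt G f g r par v s := by
  unfold cnt; positivity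

theorem sum_cnt (G : SimpleGraph V) (f g : V → ℤ) (r : V) (par : V → V) (v : V)
    (φ : Bool × Bool × Bool → ℤ) :
    ∑ c ∈ children r par v, φ (st G f g c) = ∑ s, cnt G f g r par v s * φ s := by
  classical
  rw [← Finset.sum_fiberwise (children r par v) (st G f g)]
  apply Finset.sum_congr rfl
  intro s _
  rw [Finset.sum_congr rfl (g := fun _ => φ s)]
  · rw [Finset.sum_const, nsmul_eq_mul]
    rfl
  · intro c hc
    rw [(Finset.mem_filter.1 hc).2]

theorem sum_bool3 (F : Bool × Bool × Bool → ℤ) :
    ∑ s, F s = F (true, true, true) + F (true, true, false) + F (true, false, true)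
      + F (true, false, false) + F (false, true, true) + F (false, true, false)
      + F (false, false, true) + F (false, false, false) := by
  simp only [Fintype.sum_prod_type, Fintype.sum_bool]
  ring

theorem main_ineq {T : SimpleGraph V} (hT : T.IsTree) {f g : V → ℤ} (hf : IsMinimalSDF T f)
    (hg : IsSDF T g) : 7 * (∑ v, f v - ∑ v, g v) ≤ 4 * (Fintype.card V : ℤ) - 4 := by
  classical
  obtain ⟨r⟩ := hT.connected.nonempty
  obtain ⟨par, hd, hpar⟩ := exists_par hT r
  have hcs : ∀ (φ : V → ℤ) v, closedSum T φ v =
      φ v + ((if v = r then 0 else φ (par v)) + ∑ c ∈ children r par v, φ c) := by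
    intro φ v
    have h := sum_closed (dep := fun v => T.dist v r) hd φ v
    rw [← hpar] at h
    exact h
  have hsf : ∀ v, f v = sg (st T f g v).1 := fun v => (sg_decide (hf.1.1 v)).symm
  have hsg : ∀ v, g v = sg (st T f g v).2.1 := fun v => (sg_decide (hg.1 v)).symm
  have key : ∑ v, (7 * ((f v - g v) / 2) - 2) ≤ -2 := by
    apply potential_sum r par _
      (fun v => pot (st T f g v).1 (st T f g v).2.1 (st T f g v).2.2
        (st T f g (par v)).1 (st T f g (par v)).2.1 (st T f g (par v)).2.2)
    intro v
    have e1 : ∑ c ∈ children r par v, pot (st T f g c).1 (st T f g c).2.1 (st T f g c).2.2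
        (st T f g (par c)).1 (st T f g (par c)).2.1 (st T f g (par c)).2.2 =
        ∑ s, cnt T f g r par v s * pot s.1 s.2.1 s.2.2
          (st T f g v).1 (st T f g v).2.1 (st T f g v).2.2 := by
      rw [← sum_cnt]
      apply Finset.sum_congr rfl
      intro c hc
      rw [(mem_children.1 hc).2]
    have eF := hcs f v
    have eG := hcs g v
    have sF : ∑ c ∈ children r par v, f c = ∑ s, cnt T f g r par v s * sg s.1 := by
      rw [← sum_cnt]
      exact Finset.sum_congr rfl fun c _ => hsf c
    have sG : ∑ c ∈ children r par v, g c = ∑ s, cnt T f g r par v s * sg s.2.1 := by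
      rw [← sum_cnt]
      exact Finset.sum_congr rfl fun c _ => hsg c
    rw [sF, sum_bool3] at eF
    rw [sG, sum_bool3] at eG
    have hF := hf.1.2 v
    have hG := hg.2 v
    have hk : (st T f g v).2.2 = true ↔ closedSum T f v ≤ 2 := by simp [st]
    have hcrit : (st T f g v).1 = true → (st T f g v).2.2 = true ∨
        (v ≠ r ∧ (st T f g (par v)).2.2 = true) ∨
        1 ≤ cnt T f g r par v (true, true, true) + cnt T f g r par v (true, false, true)
          + cnt T f g r par v (false, true, true) + cnt T f g r par v (false, false, true) := by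
      intro h1
      have h1' : f v = 1 := by simpa [st] using h1
      obtain ⟨u, hu, hu2⟩ := critical hf h1'
      rcases hu with rfl | hu
      · left; simpa [st] using hu2
      · rw [hpar, parGraph_adj] at hu
        rcases hu.2 with ⟨h2, h3⟩ | ⟨h2, h3⟩
        · right; left
          refine ⟨h2, ?_⟩
          rw [h3]
          simpa [st] using hu2
        · right; right
          have hmem : u ∈ (children r par v).filter (fun c => st T f g c = st T f g u) :=
            Finset.mem_filter.2 ⟨mem_children.2 ⟨h2, h3⟩, rfl⟩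
          have hpos : 1 ≤ cnt T f g r par v (st T f g u) := by
            unfold cnt
            have : 0 < ((children r par v).filter (fun c => st T f g c = st T f g u)).card :=
              Finset.card_pos.2 ⟨u, hmem⟩
            exact_mod_cast this
          have hu3 : (st T f g u).2.2 = true := by simpa [st] using hu2
          have n1 := cnt_nonneg T f g r par v (true, true, true)
          have n2 := cnt_nonneg T f g r par v (true, false, true)
          have n3 := cnt_nonneg T f g r par v (false, true, true)
          have n4 := cnt_nonneg T f g r par v (false, false, true)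
          revert hpos hu3
          generalize st T f g u = s
          obtain ⟨s1, s2, s3⟩ := s
          intro hpos hu3
          simp only at hu3
          subst hu3
          cases s1 <;> cases s2 <;> omega
    rw [e1, sum_bool3]
    have hfv := hsf v
    have hgv := hsg v
    by_cases hv : v = r
    · rw [if_pos hv]
      rw [if_pos hv] at eF eG
      rw [hfv, hgv]
      have h := locRoot (st T f g v).1 (st T f g v).2.1 (st T f g v).2.2
        (cnt T f g r par v (true, true, true)) (cnt T f g r par v (true, true, false))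
        (cnt T f g r par v (true, false, true)) (cnt T f g r par v (true, false, false))
        (cnt T f g r par v (false, true, true)) (cnt T f g r par v (false, true, false))
        (cnt T f g r par v (false, false, true)) (cnt T f g r par v (false, false, false))
        (cnt_nonneg _ _ _ _ _ _ _) (cnt_nonneg _ _ _ _ _ _ _) (cnt_nonneg _ _ _ _ _ _ _)
        (cnt_nonneg _ _ _ _ _ _ _) (cnt_nonneg _ _ _ _ _ _ _) (cnt_nonneg _ _ _ _ _ _ _)
        (cnt_nonneg _ _ _ _ _ _ _) (cnt_nonneg _ _ _ _ _ _ _)
      apply h
      · rw [← hfv]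
        simp only [sg, cond_true, cond_false] at eF
        linarith
      · rw [← hgv]
        simp only [sg, cond_true, cond_false] at eG
        linarith
      · rw [hk, ← hfv]
        simp only [sg, cond_true, cond_false] at eF
        constructor <;> intro _ <;> linarith
      · intro h1
        rcases hcrit h1 with h2 | h2 | h2
        · exact Or.inl h2
        · exact absurd hv h2.1
        · exact Or.inr h2
    · rw [if_neg hv]
      rw [if_neg hv] at eF eG
      rw [hfv, hgv]
      have hfp := hsf (par v)
      have hgp := hsg (par v)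
      have h := loc (st T f g v).1 (st T f g v).2.1 (st T f g v).2.2
        (st T f g (par v)).1 (st T f g (par v)).2.1 (st T f g (par v)).2.2
        (cnt T f g r par v (true, true, true)) (cnt T f g r par v (true, true, false))
        (cnt T f g r par v (true, false, true)) (cnt T f g r par v (true, false, false))
        (cnt T f g r par v (false, true, true)) (cnt T f g r par v (false, true, false))
        (cnt T f g r par v (false, false, true)) (cnt T f g r par v (false, false, false))
        (cnt_nonneg _ _ _ _ _ _ _) (cnt_nonneg _ _ _ _ _ _ _) (cnt_nonneg _ _ _ _ _ _ _)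
        (cnt_nonneg _ _ _ _ _ _ _) (cnt_nonneg _ _ _ _ _ _ _) (cnt_nonneg _ _ _ _ _ _ _)
        (cnt_nonneg _ _ _ _ _ _ _) (cnt_nonneg _ _ _ _ _ _ _)
      apply h
      · rw [← hfv, ← hfp]
        simp only [sg, cond_true, cond_false] at eF
        linarith
      · rw [← hgv, ← hgp]
        simp only [sg, cond_true, cond_false] at eG
        linarith
      · rw [hk, ← hfv, ← hfp]
        simp only [sg, cond_true, cond_false] at eF
        constructor <;> intro _ <;> linarith
      · intro h1
        rcases hcrit h1 with h2 | h2 | h2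
        · exact Or.inl h2
        · exact Or.inr (Or.inl h2.2)
        · exact Or.inr (Or.inr h2)
  have h2 : ∀ v, f v - g v = 2 * ((f v - g v) / 2) := by
    intro v
    rcases hf.1.1 v with h | h <;> rcases hg.1 v with h' | h' <;> rw [h, h'] <;> norm_num
  have h3 : ∑ v, f v - ∑ v, g v = 2 * ∑ v, (f v - g v) / 2 := by
    rw [← Finset.sum_sub_distrib, Finset.mul_sum]
    exact Finset.sum_congr rfl fun v _ => h2 v
  rw [Finset.sum_sub_distrib, ← Finset.mul_sum, Finset.sum_const, Finset.card_univ,
    nsmul_eq_mul] at key
  rw [h3]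
  linarith

theorem one_isSDF (G : SimpleGraph V) : IsSDF G (fun _ => 1) := by
  classical
  refine ⟨fun _ => Or.inl rfl, fun v => ?_⟩
  unfold closedSum
  rw [Finset.sum_const, nsmul_eq_mul, mul_one]
  have : 0 < (Finset.univ.filter (fun u => u = v ∨ G.Adj v u)).card :=
    Finset.card_pos.2 ⟨v, by simp⟩
  exact_mod_cast this

theorem weight_abs {f : V → ℤ} (hf : ∀ v, f v = 1 ∨ f v = -1) :
    -(Fintype.card V : ℤ) ≤ ∑ v, f v ∧ ∑ v, f v ≤ Fintype.card V := by
  constructor
  · have : ∑ _v : V, (-1 : ℤ) ≤ ∑ v, f v :=
      Finset.sum_le_sum fun v _ => by rcases hf v with h | h <;> omega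
    simpa using this
  · have : ∑ v, f v ≤ ∑ _v : V, (1 : ℤ) :=
      Finset.sum_le_sum fun v _ => by rcases hf v with h | h <;> omega
    simpa using this

theorem exists_gammaS (G : SimpleGraph V) : ∃ f, IsSDF G f ∧ ∑ v, f v = gammaS G :=
  Int.csInf_mem (s := {w | ∃ f, IsSDF G f ∧ ∑ v, f v = w}) ⟨_, _, one_isSDF G, rfl⟩
    ⟨-(Fintype.card V : ℤ), by
      rintro w ⟨f, hf, rfl⟩
      exact (weight_abs hf.1).1⟩

theorem gammaS_le {G : SimpleGraph V} {f : V → ℤ} (hf : IsSDF G f) : gammaS G ≤ ∑ v, f v :=
  csInf_le ⟨-(Fintype.card V : ℤ), by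
      rintro w ⟨f, hf, rfl⟩
      exact (weight_abs hf.1).1⟩ ⟨f, hf, rfl⟩

theorem exists_GammaS (G : SimpleGraph V) : ∃ f, IsMinimalSDF G f ∧ ∑ v, f v = GammaS G := by
  refine Int.csSup_mem (s := {w | ∃ f, IsMinimalSDF G f ∧ ∑ v, f v = w}) ?_
    ⟨(Fintype.card V : ℤ), by
      rintro w ⟨f, hf, rfl⟩
      exact (weight_abs hf.1.1).2⟩
  obtain ⟨f, hf, hw⟩ := exists_gammaS G
  refine ⟨_, f, ⟨hf, ?_⟩, rfl⟩
  intro g hg hle
  have h1 : ∑ v, f v ≤ ∑ v, g v := hw ▸ gammaS_le hg
  have h2 : ∑ v, g v ≤ ∑ v, f v := Finset.sum_le_sum fun v _ => hle v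
  have h3 := (Finset.sum_eq_sum_iff_of_le (s := Finset.univ) (fun v _ => hle v)).1
    (le_antisymm h2 h1)
  funext v
  exact h3 v (Finset.mem_univ v)

end main

/-- **Result (Q1).**  For every tree `T` of order `n`, `Γ_s(T) - γ_s(T) ≤ 4(n-1)/7`; in
particular `(Γ_s(T) - γ_s(T))/n ≤ 4/7`. -/
theorem result (V : Type) [Fintype V] (T : SimpleGraph V) (hT : T.IsTree) :
    7 * (GammaS T - gammaS T) ≤ 4 * ((Fintype.card V : ℤ) - 1) ∧
      ((GammaS T - gammaS T : ℤ) : ℝ) / (Fintype.card V : ℝ) ≤ 4 / 7 := by
  obtain ⟨f, hf, hfw⟩ := exists_GammaS T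
  obtain ⟨g, hg, hgw⟩ := exists_gammaS T
  have h := main_ineq hT hf hg
  rw [hfw, hgw] at h
  refine ⟨by linarith, ?_⟩
  have hpos : 0 < Fintype.card V := Fintype.card_pos_iff.2 hT.connected.nonempty
  have hpos' : (0 : ℝ) < Fintype.card V := by exact_mod_cast hpos
  rw [div_le_div_iff₀ hpos' (by norm_num)]
  have h' : (GammaS T - gammaS T) * 7 ≤ 4 * (Fintype.card V : ℤ) := by linarith
  exact_mod_cast h'

end Pool.Agent.Results.MP_1fa864_co.FourSevenths
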